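import Mathlib

/-!
# Control functionals for vector capacities

Let `E` be a Banach lattice with order continuous norm and `v ≥ 0`. For every `ε > 0` there are a
positive functional `f` and `δ > 0` such that `0 ≤ z ≤ v` and `f z < δ` imply `‖z‖ < ε`: otherwise
one chooses `z_n` in `[0, v]` and positive functionals `g_n` of norm at most one with
`g_n z_n = ‖z_n‖ ≥ ε` and `g_i z_n < 2⁻ⁿ` for `i < n`; the suprema `t_n = sup_{m ≥ n} z_m` decrease to
some `t` in norm with `g_i t = 0` for all `i`, and `g_n t_n ≥ ε` gives a contradiction.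
A weighted sum of these functionals for `ε = 1/k` and `v = μ(X)` controls `μ`.
-/

set_option autoImplicit false
set_option linter.unusedSectionVars false

open Filter Set
open scoped Topology

namespace Pool.Agent.Results.MP_e24518_an.ControlFunctional

/-- The norm is order continuous: monotone order bounded sequences converge in norm. -/
def OrderContinuousNorm (E : Type*) [NormedAddCommGroup E] [Lattice E] : Prop :=
  (∀ x : ℕ → E, Monotone x → BddAbove (range x) → ∃ l, Tendsto x atTop (𝓝 l)) ∧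
    ∀ x : ℕ → E, Antitone x → BddBelow (range x) → ∃ l, Tendsto x atTop (𝓝 l)

/-- A vector capacity on the σ-algebra of measurable sets, with values in the positive cone. -/
structure IsVectorCapacity {Ω E : Type*} [MeasurableSpace Ω] [Zero E] [Preorder E]
    (μ : Set Ω → E) : Prop where
  nonneg : ∀ A, MeasurableSet A → 0 ≤ μ A
  empty : μ ∅ = 0
  mono : ∀ A B, MeasurableSet A → MeasurableSet B → A ⊆ B → μ A ≤ μ B

/-- Absolute continuity of a vector capacity with respect to a capacity. -/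
def AbsCont {Ω E : Type*} [MeasurableSpace Ω] [Norm E] (μ : Set Ω → E) (l : Set Ω → ℝ) : Prop :=
  ∀ ε : ℝ, 0 < ε → ∃ δ : ℝ, 0 < δ ∧ ∀ A, MeasurableSet A → l A < δ → ‖μ A‖ < ε

variable {E : Type*} [NormedAddCommGroup E] [Lattice E] [IsOrderedAddMonoid E] [HasSolidNorm E]
  [NormedSpace ℝ E] [IsOrderedModule ℝ E]

theorem norm_le_norm_of_nonneg {x y : E} (hx : 0 ≤ x) (hxy : x ≤ y) : ‖x‖ ≤ ‖y‖ :=
  norm_le_norm_of_abs_le_abs (by rwa [abs_of_nonneg hx, abs_of_nonneg (hx.trans hxy)])

theorem posPart_smul_le {c : ℝ} (hc : 0 < c) (x : E) : (c • x)⁺ ≤ c • x⁺ :=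
  sup_le (smul_le_smul_of_nonneg_left (le_posPart x) hc.le) (smul_nonneg hc.le (posPart_nonneg x))

theorem posPart_smul' {c : ℝ} (hc : 0 < c) (x : E) : (c • x)⁺ = c • x⁺ := by
  refine le_antisymm (posPart_smul_le hc x) ?_
  have h1 := posPart_smul_le (inv_pos.mpr hc) (c • x)
  rw [smul_smul, inv_mul_cancel₀ hc.ne', one_smul] at h1
  have h2 := smul_le_smul_of_nonneg_left h1 hc.le
  rwa [smul_smul, mul_inv_cancel₀ hc.ne', one_smul] at h2

theorem norm_posPart_le' (x : E) : ‖x⁺‖ ≤ ‖x‖ := by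
  refine norm_le_norm_of_abs_le_abs ?_
  rw [abs_of_nonneg (posPart_nonneg x)]
  exact sup_le (le_abs_self x) (abs_nonneg x)

/-- Norming positive functionals. -/
theorem exists_functional (z : E) (hz : 0 ≤ z) : ∃ f : StrongDual ℝ E, ‖f‖ ≤ 1 ∧
    (∀ x, 0 ≤ x → 0 ≤ f x) ∧ f z = ‖z‖ := by
  by_cases hz0 : z = 0
  · exact ⟨0, by simp, fun x _ => le_rfl, by simp [hz0]⟩
  let f₀ : E →ₗ.[ℝ] ℝ := LinearPMap.mkSpanSingleton z ‖z‖ hz0
  have hf₀ : ∀ (c : ℝ) (h : c • z ∈ f₀.domain), f₀ ⟨c • z, h⟩ = c * ‖z‖ := fun c h =>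
    LinearPMap.mkSpanSingleton'_apply z ‖z‖ _ c h
  obtain ⟨g, hg1, hg2⟩ := exists_extension_of_le_sublinear f₀ (fun x => ‖x⁺‖)
    (fun c hc x => by
      rw [posPart_smul' hc, norm_smul, Real.norm_of_nonneg hc.le])
    (fun x y => by
      refine (norm_le_norm_of_nonneg (posPart_nonneg _) ?_).trans (norm_add_le _ _)
      exact sup_le (add_le_add (le_posPart x) (le_posPart y))
        (add_nonneg (posPart_nonneg x) (posPart_nonneg y)))
    (by
      rintro ⟨x, hx⟩
      obtain ⟨c, rfl⟩ := Submodule.mem_span_singleton.mp hx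
      rw [hf₀ c hx]
      rcases le_or_gt c 0 with hc | hc
      · exact (mul_nonpos_of_nonpos_of_nonneg hc (norm_nonneg _)).trans (norm_nonneg _)
      · simp only
        rw [posPart_smul' hc, posPart_of_nonneg hz, norm_smul, Real.norm_of_nonneg hc.le])
  have hgz : g z = ‖z‖ := by
    have hmem : (1 : ℝ) • z ∈ f₀.domain := Submodule.mem_span_singleton.mpr ⟨1, rfl⟩
    have h1 := hg1 ⟨(1 : ℝ) • z, hmem⟩
    rw [hf₀ 1 hmem, one_mul] at h1
    simpa using h1
  have hbd : ∀ x, ‖g x‖ ≤ 1 * ‖x‖ := fun x => by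
    rw [one_mul, Real.norm_eq_abs, abs_le]
    constructor
    · have h1 := hg2 (-x)
      rw [map_neg] at h1
      have h2 := norm_posPart_le' (-x)
      rw [norm_neg] at h2
      linarith
    · exact (hg2 x).trans (norm_posPart_le' x)
  refine ⟨g.mkContinuous 1 hbd, g.mkContinuous_norm_le zero_le_one hbd, fun x hx => ?_, hgz⟩
  rw [LinearMap.mkContinuous_apply]
  have h1 := hg2 (-x)
  have h2 : (-x)⁺ = 0 := posPart_of_nonpos (neg_nonpos.mpr hx)
  simp only [h2, norm_zero, map_neg] at h1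
  linarith

/-- The main lemma. -/
theorem exists_delta (hE : OrderContinuousNorm E) (v : E) {ε : ℝ} (hε : 0 < ε) :
    ∃ f : StrongDual ℝ E, (∀ x, 0 ≤ x → 0 ≤ f x) ∧ ∃ δ : ℝ, 0 < δ ∧
      ∀ z, 0 ≤ z → z ≤ v → f z < δ → ‖z‖ < ε := by
  by_contra hcon
  push Not at hcon
  let P := {F : StrongDual ℝ E // ∀ x, 0 ≤ x → 0 ≤ F x}
  have hZ : ∀ (F : P) (n : ℕ), ∃ z : E, 0 ≤ z ∧ z ≤ v ∧ F.1 z < (1 / 2) ^ n ∧ ε ≤ ‖z‖ :=
    fun F n => hcon F.1 F.2 _ (by positivity)
  choose Z hZ0 hZv hZF hZε using hZ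
  choose G hG1 hG0 hGn using fun (F : P) (n : ℕ) => exists_functional (Z F n) (hZ0 F n)
  let F : ℕ → P := fun n => Nat.rec ⟨0, fun _ _ => le_rfl⟩
    (fun n F => ⟨F.1 + G F n, fun x hx => add_nonneg (F.2 x hx) (hG0 F n x hx)⟩) n
  set z : ℕ → E := fun n => Z (F n) n with hz
  set g : ℕ → StrongDual ℝ E := fun n => G (F n) n with hg
  have hFs : ∀ n, (F (n + 1)).1 = (F n).1 + g n := fun n => rfl
  have hgF : ∀ n i, i < n → ∀ x, 0 ≤ x → g i x ≤ (F n).1 x := by
    intro n
    induction n with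
    | zero => intro i hi; omega
    | succ n ih =>
      intro i hi x hx
      rw [hFs n]
      have h1 : ((F n).1 + g n) x = (F n).1 x + g n x := rfl
      rw [h1]
      rcases Nat.lt_succ_iff_lt_or_eq.mp hi with h | h
      · exact (ih i h x hx).trans (le_add_of_nonneg_right (hG0 _ _ x hx))
      · rw [h]; exact le_add_of_nonneg_left ((F n).2 x hx)
  have hgz : ∀ n i, i < n → g i (z n) ≤ (1 / 2) ^ n := fun n i hi =>
    (hgF n i hi _ (hZ0 _ _)).trans (hZF (F n) n).le
  have hz0 : ∀ n, 0 ≤ z n := fun n => hZ0 _ _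
  have hzv : ∀ n, z n ≤ v := fun n => hZv _ _
  have hmono : ∀ i, ∀ x y : E, x ≤ y → g i x ≤ g i y := fun i x y hxy => by
    have := hG0 (F i) i (y - x) (sub_nonneg.mpr hxy)
    rw [map_sub] at this
    exact sub_nonneg.mp this
  -- the suprema
  have ht : ∀ n, ∃ t, Tendsto (fun M => partialSups (fun k => z (n + k)) M) atTop (𝓝 t) :=
    fun n => hE.1 _ (partialSups _).monotone ⟨v, by
      rintro _ ⟨M, rfl⟩
      exact partialSups_le _ _ _ fun k _ => hzv _⟩
  choose t ht using ht
  have htz : ∀ n k, z (n + k) ≤ t n := fun n k =>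
    ge_of_tendsto (ht n) (eventually_atTop.mpr ⟨k, fun M hM =>
      le_partialSups_of_le (fun k => z (n + k)) hM⟩)
  have htle : ∀ n a, (∀ k, z (n + k) ≤ a) → t n ≤ a := fun n a h =>
    le_of_tendsto' (ht n) fun M => partialSups_le _ _ _ fun k _ => h k
  have htanti : Antitone t := antitone_nat_of_succ_le fun n => htle _ _ fun k => by
    have := htz n (k + 1)
    rwa [show n + (k + 1) = n + 1 + k by ring] at this
  have ht0 : ∀ n, 0 ≤ t n := fun n => (hz0 _).trans (htz n 0)
  obtain ⟨u, hu⟩ := hE.2 t htanti ⟨0, by rintro _ ⟨n, rfl⟩; exact ht0 n⟩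
  have hut : ∀ n, u ≤ t n := fun n => htanti.le_of_tendsto hu n
  have hgt : ∀ i n, i < n → g i (t n) ≤ 2 * (1 / 2) ^ n := by
    intro i n hi
    refine le_of_tendsto' (((g i).continuous.tendsto _).comp (ht n)) fun M => ?_
    have key : ∀ M, g i (partialSups (fun k => z (n + k)) M) ≤
        (1 / 2) ^ n * (2 - (1 / 2) ^ M) := by
      intro M
      induction M with
      | zero =>
        rw [partialSups_zero]
        have := hgz n i hi
        norm_num at this ⊢
        exact this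
      | succ M ih =>
        have h1 : partialSups (fun k => z (n + k)) (M + 1) ≤
            partialSups (fun k => z (n + k)) M + z (n + (M + 1)) := by
          rw [partialSups_add_one]
          refine sup_le (le_add_of_nonneg_right (hz0 (n + (M + 1)))) (le_add_of_nonneg_left ?_)
          exact (hz0 (n + 0)).trans (le_partialSups_of_le (fun k => z (n + k)) (Nat.zero_le M))
        have h2 := hmono i _ _ h1
        rw [map_add (g i)] at h2
        have h3 := hgz (n + (M + 1)) i (by omega)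
        have h4 : ((1 : ℝ) / 2) ^ (n + (M + 1)) = (1 / 2) ^ n * ((1 / 2) ^ M / 2) := by
          rw [pow_add, pow_succ]; ring
        have h5 : ((1 : ℝ) / 2) ^ n * (2 - (1 / 2) ^ (M + 1)) =
            (1 / 2) ^ n * (2 - (1 / 2) ^ M) + (1 / 2) ^ n * ((1 / 2) ^ M / 2) := by
          rw [pow_succ]; ring
        rw [h5]
        linarith
    refine (key M).trans ?_
    have h1 : (0 : ℝ) ≤ (1 / 2) ^ n := by positivity
    have h2 : (0 : ℝ) ≤ (1 / 2) ^ M := by positivity
    nlinarith
  have hgu : ∀ i, g i u ≤ 0 := by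
    intro i
    have hlim : Tendsto (fun n : ℕ => 2 * ((1 : ℝ) / 2) ^ n) atTop (𝓝 (2 * 0)) :=
      (tendsto_pow_atTop_nhds_zero_of_lt_one (by norm_num) (by norm_num)).const_mul 2
    rw [mul_zero] at hlim
    refine ge_of_tendsto hlim (eventually_atTop.mpr ⟨i + 1, fun n hn => ?_⟩)
    exact (hmono i _ _ (hut n)).trans (hgt i n (by omega))
  have hlast : ∀ n, ε ≤ ‖t n - u‖ := by
    intro n
    have h1 : ε ≤ g n (z n) := by
      rw [hg]; simp only; rw [hz]; simp only; rw [hGn]; exact hZε _ _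
    have h2 : g n (z n) ≤ g n (t n) := hmono n _ _ (htz n 0)
    have h3 : g n (t n) = g n (t n - u) + g n u := by rw [map_sub]; ring
    have h4 : g n (t n - u) ≤ ‖t n - u‖ :=
      (le_abs_self _).trans (((g n).le_opNorm _).trans
        (mul_le_of_le_one_left (norm_nonneg _) (hG1 _ _)))
    have := hgu n
    linarith
  have hlim : Tendsto (fun n => ‖t n - u‖) atTop (𝓝 0) := tendsto_iff_norm_sub_tendsto_zero.mp hu
  have := ge_of_tendsto' hlim hlast
  linarith

variable [CompleteSpace E]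

/-- One functional for all `ε`. -/
theorem exists_control (hE : OrderContinuousNorm E) (v : E) :
    ∃ f : StrongDual ℝ E, (∀ x, 0 ≤ x → 0 ≤ f x) ∧ ∀ ε : ℝ, 0 < ε → ∃ δ : ℝ, 0 < δ ∧
      ∀ z, 0 ≤ z → z ≤ v → f z < δ → ‖z‖ < ε := by
  choose f hf δ hδ h using fun n : ℕ => exists_delta hE v (ε := 1 / ((n : ℝ) + 1)) (by positivity)
  set a : ℕ → ℝ := fun n => (1 / 2) ^ n / (1 + ‖f n‖) with ha
  have ha0 : ∀ n, 0 < a n := fun n => by positivity
  have hsum : Summable fun n => a n • f n := by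
    refine Summable.of_norm_bounded (g := fun n : ℕ => ((1 : ℝ) / 2) ^ n) summable_geometric_two
      fun n => ?_
    rw [norm_smul, Real.norm_of_nonneg (ha0 n).le, ha]
    simp only
    rw [div_mul_eq_mul_div, div_le_iff₀ (by positivity)]
    have : (0 : ℝ) ≤ (1 / 2) ^ n := by positivity
    nlinarith [norm_nonneg (f n)]
  have happ : ∀ x, HasSum (fun n => a n * f n x) ((∑' n, a n • f n) x) := fun x => by
    have := ((ContinuousLinearMap.apply ℝ ℝ x).hasSum hsum.hasSum)
    simpa using this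
  refine ⟨∑' n, a n • f n, fun x hx => ?_, fun ε hε => ?_⟩
  · exact (happ x).nonneg fun n => mul_nonneg (ha0 n).le (hf n x hx)
  · obtain ⟨n, hn⟩ := exists_nat_one_div_lt hε
    refine ⟨a n * δ n, mul_pos (ha0 n) (hδ n), fun z hz hzv hzf => ?_⟩
    refine (h n z hz hzv ?_).trans hn
    have h1 : a n * f n z ≤ (∑' n, a n • f n) z :=
      le_hasSum (happ z) n fun m _ => mul_nonneg (ha0 m).le (hf m z hz)
    exact lt_of_mul_lt_mul_left (h1.trans_lt hzf) (ha0 n).le

/-- **Result.** If `μ` is a vector capacity with values in the positive cone of a Banach lattice with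
order continuous norm, then `μ` is absolutely continuous with respect to the capacity `x* ∘ μ` for
some positive functional `x*`. -/
theorem result {Ω : Type*} [MeasurableSpace Ω] (hE : OrderContinuousNorm E) (μ : Set Ω → E)
    (hμ : IsVectorCapacity μ) :
    ∃ f : StrongDual ℝ E, (∀ x, 0 ≤ x → 0 ≤ f x) ∧ IsVectorCapacity (fun A => f (μ A)) ∧
      AbsCont μ (fun A => f (μ A)) := by
  obtain ⟨f, hf, h⟩ := exists_control hE (μ univ)
  refine ⟨f, hf, ⟨fun A hA => hf _ (hμ.nonneg A hA), by simp [hμ.empty], fun A B hA hB hAB => ?_⟩,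
    fun ε hε => ?_⟩
  · have h1 := hf _ (sub_nonneg.mpr (hμ.mono A B hA hB hAB))
    rw [map_sub] at h1
    exact sub_nonneg.mp h1
  · obtain ⟨δ, hδ, h1⟩ := h ε hε
    exact ⟨δ, hδ, fun A hA hA2 => h1 _ (hμ.nonneg A hA)
      (hμ.mono A univ hA MeasurableSet.univ (subset_univ A)) hA2⟩

end Pool.Agent.Results.MP_e24518_an.ControlFunctional
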